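import Pool.Agent.Q151.BD.Defs

/-!
# A balanced digraph of order ten below the quartic curve
-/

set_option autoImplicit false

namespace Pool.Agent.Results.MP_31cf8f_co.OrderTen

open Pool.Agent.Q151.BD

/-- There are an order `n ≥ 2` and a balanced digraph `G` of order `n` (in fact `n = 10`) such that,
for the algebraic connectivities `x` of `G` and `y` of its complement, `x ≠ 0`, `y ≠ 0`, `x ≤ 1`,
`y ≤ 1` and `x y (2 - x y) < n (1 - x) (1 - y) (n - 2 - x - y)`. -/
theorem result : ∃ (n : ℕ) (G : Digr n), 2 ≤ n ∧ G.Balanced ∧ G.alpha ≠ 0 ∧ G.compl.alpha ≠ 0 ∧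
    G.alpha ≤ 1 ∧ G.compl.alpha ≤ 1 ∧
    G.alpha * G.compl.alpha * (2 - G.alpha * G.compl.alpha) <
      n * (1 - G.alpha) * (1 - G.compl.alpha) * (n - 2 - G.alpha - G.compl.alpha) := by
  refine ⟨10, Γ, by norm_num, balanced, ?_, ?_, alpha_le.trans (by norm_num),
    alpha_compl_le.trans (by norm_num), ?_⟩
  · have := half_le
    intro h
    rw [h] at this
    norm_num at this
  · have := half_le_compl
    intro h
    rw [h] at this
    norm_num at this
  · have h := num Γ.alpha Γ.compl.alpha alpha_le alpha_compl_le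
    push_cast
    exact h

end Pool.Agent.Results.MP_31cf8f_co.OrderTen
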